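import Pool.Agent.Y788.SL.Stm
import Pool.Agent.H302R2.Basic
import Pool.Agent.Y786.FR.Pair
import Pool.Agent.W446.AS.Virt

/-!
# Multiplicities in the restriction to a subgroup of `SL_n(F)`, `F` large (helper954)
-/

set_option autoImplicit false

namespace Pool.Agent.Y954.SL

open Pool.Agent.H302R2

section twist

variable {S G : Type} [Group S] [Finite S] [Group G] [Finite G]

/-- the part of `θ` with central character `ω` -/
noncomputable def tws (ι : G →* S) (Z : Subgroup G) (ω : Z →* ℂˣ) (θ : S → ℂ) (x : S) : ℂ :=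
  (Nat.card Z : ℂ)⁻¹ * ∑ᶠ z : Z, (((ω z)⁻¹ : ℂˣ) : ℂ) * θ (ι z * x)

variable {ι : G →* S} {Z : Subgroup G} (hZ : ∀ z ∈ Z, ∀ s : S, ι z * s = s * ι z)
  (ω : Z →* ℂˣ) {θ : S → ℂ}

include hZ in
lemma tws_heil (hθ : IsHeilbronn θ) : IsHeilbronn (tws ι Z ω θ) := by
  classical
  have : Fintype Z := Fintype.ofFinite _
  refine ⟨fun g h => ?_, fun H ψ => ?_⟩
  · unfold tws
    congr 1
    refine finsum_congr fun z => ?_
    congr 1
    have h1 : ι z * (h * g * h⁻¹) = h * (ι z * g) * h⁻¹ := by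
      rw [← mul_assoc, ← mul_assoc, hZ z z.2 h, mul_assoc h]
    rw [h1, hθ.conj]
  · have : Fintype H := Fintype.ofFinite _
    let φ : Z × H →* S := MonoidHom.noncommCoprod (ι.comp Z.subtype) H.subtype
      (fun z h => hZ z z.2 h)
    obtain ⟨n, hn⟩ := hθ.mult_hom φ (ω.coprod ψ)
    refine ⟨n, ?_⟩
    have hZ0 : (Nat.card Z : ℂ) ≠ 0 := by exact_mod_cast Nat.card_pos.ne'
    rw [Fintype.sum_prod_type] at hn
    rw [finsum_eq_sum_of_fintype]
    unfold tws
    simp only [finsum_eq_sum_of_fintype]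
    apply mul_left_cancel₀ hZ0
    have h1 : (Nat.card Z : ℂ) * ((n : ℂ) * (Nat.card H : ℂ)) = n * (Nat.card (Z × H) : ℂ) := by
      rw [Nat.card_prod]
      push_cast
      ring
    rw [h1, ← hn, Finset.sum_comm, Finset.mul_sum]
    refine Finset.sum_congr rfl fun h _ => ?_
    rw [mul_assoc, ← mul_assoc (Nat.card Z : ℂ), mul_inv_cancel₀ hZ0, one_mul, Finset.sum_mul]
    refine Finset.sum_congr rfl fun z _ => ?_
    have h2 : φ (z, h) = ι z * h := rfl
    have h3 : (ω.coprod ψ) (z, h) = ω z * ψ h := rfl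
    rw [h2, h3, mul_inv, Units.val_mul]
    ring

omit [Finite S] in
lemma tws_mul (z : Z) (x : S) : tws ι Z ω θ (ι z * x) = ((ω z : ℂˣ) : ℂ) * tws ι Z ω θ x := by
  classical
  have : Fintype Z := Fintype.ofFinite _
  unfold tws
  simp only [finsum_eq_sum_of_fintype]
  rw [mul_left_comm]
  congr 1
  rw [Finset.mul_sum, ← Equiv.sum_comp (Equiv.mulRight z)
    (fun y : Z => ((ω z : ℂˣ) : ℂ) * ((((ω y)⁻¹ : ℂˣ) : ℂ) * θ (ι y * x)))]
  refine Finset.sum_congr rfl fun y _ => ?_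
  rw [Equiv.coe_mulRight, map_mul, mul_inv, Units.val_mul, Subgroup.coe_mul, map_mul, mul_assoc (ι _)]
  have h3 : ((ω z : ℂˣ) : ℂ) * (((ω z)⁻¹ : ℂˣ) : ℂ) = 1 := Units.mul_inv _
  calc (((ω y)⁻¹ : ℂˣ) : ℂ) * θ (ι y * (ι z * x)) =
      (((ω z : ℂˣ) : ℂ) * (((ω z)⁻¹ : ℂˣ) : ℂ)) * ((((ω y)⁻¹ : ℂˣ) : ℂ) * θ (ι y * (ι z * x))) := by
        rw [h3, one_mul]
    _ = _ := by ring

omit [Finite S] in
lemma tws_sum [Fintype G] {χ : G → ℂ}
    (hχ : ∀ (z : Z) (g : G), χ (g * z) = ((ω z : ℂˣ) : ℂ) * χ g) :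
    ∑ g : G, tws ι Z ω θ (ι g) * χ g⁻¹ = ∑ g : G, θ (ι g) * χ g⁻¹ := by
  classical
  have : Fintype Z := Fintype.ofFinite _
  have hZ0 : (Nat.card Z : ℂ) ≠ 0 := by exact_mod_cast Nat.card_pos.ne'
  apply mul_left_cancel₀ hZ0
  unfold tws
  simp only [finsum_eq_sum_of_fintype]
  rw [Finset.mul_sum]
  have h1 : ∀ g : G, (Nat.card Z : ℂ) * ((Nat.card Z : ℂ)⁻¹ *
      (∑ z : Z, (((ω z)⁻¹ : ℂˣ) : ℂ) * θ (ι z * ι g)) * χ g⁻¹) =
      ∑ z : Z, (((ω z)⁻¹ : ℂˣ) : ℂ) * θ (ι z * ι g) * χ g⁻¹ := by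
    intro g
    rw [← mul_assoc, ← mul_assoc, mul_inv_cancel₀ hZ0, one_mul, Finset.sum_mul]
  rw [Finset.sum_congr rfl fun g _ => h1 g, Finset.sum_comm]
  have h2 : ∀ z : Z, ∑ g : G, (((ω z)⁻¹ : ℂˣ) : ℂ) * θ (ι z * ι g) * χ g⁻¹ =
      ∑ g : G, θ (ι g) * χ g⁻¹ := by
    intro z
    rw [← Equiv.sum_comp (Equiv.mulLeft (z : G)⁻¹)]
    refine Finset.sum_congr rfl fun g _ => ?_
    rw [Equiv.coe_mulLeft, ← map_mul, mul_inv_cancel_left, mul_inv_rev, inv_inv, hχ]
    have h3 : (((ω z)⁻¹ : ℂˣ) : ℂ) * ((ω z : ℂˣ) : ℂ) = 1 := Units.inv_mul _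
    calc (((ω z)⁻¹ : ℂˣ) : ℂ) * θ (ι g) * (((ω z : ℂˣ) : ℂ) * χ g⁻¹) =
        ((((ω z)⁻¹ : ℂˣ) : ℂ) * ((ω z : ℂˣ) : ℂ)) * (θ (ι g) * χ g⁻¹) := by ring
      _ = θ (ι g) * χ g⁻¹ := by rw [h3, one_mul]
  rw [Finset.sum_congr rfl fun z _ => h2 z, Finset.sum_const, nsmul_eq_mul, Finset.card_univ,
    Nat.card_eq_fintype_card]

end twist

section est

variable {G : Type} [Group G] [Fintype G]

/-- a nontrivial linear character takes a value far from one -/
lemma exists_far {Z : Type} [Group Z] [Fintype Z] (ω : Z →* ℂˣ) (h : ∃ z, ω z ≠ 1) :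
    ∃ z, 1 ≤ ‖1 - ((ω z : ℂˣ) : ℂ)‖ := by
  by_contra hc
  push Not at hc
  have h0 : ∑ z : Z, ((ω z : ℂˣ) : ℂ) = 0 := by
    obtain ⟨z0, hz0⟩ := h
    have h1 : ((ω z0 : ℂˣ) : ℂ) ≠ 1 := fun h2 => hz0 (Units.ext h2)
    have h2 : ((ω z0 : ℂˣ) : ℂ) * ∑ z : Z, ((ω z : ℂˣ) : ℂ) = ∑ z : Z, ((ω z : ℂˣ) : ℂ) := by
      rw [Finset.mul_sum, ← Equiv.sum_comp (Equiv.mulLeft z0) (fun z => ((ω z : ℂˣ) : ℂ))]
      refine Finset.sum_congr rfl fun z _ => ?_
      rw [Equiv.coe_mulLeft, map_mul, Units.val_mul]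
    have h3 : (((ω z0 : ℂˣ) : ℂ) - 1) * ∑ z : Z, ((ω z : ℂˣ) : ℂ) = 0 := by
      rw [sub_mul, one_mul, h2, sub_self]
    rcases mul_eq_zero.1 h3 with h4 | h4
    · exact absurd (sub_eq_zero.1 h4) h1
    · exact h4
  have h1 : ∑ z : Z, (1 - ((ω z : ℂˣ) : ℂ)) = (Fintype.card Z : ℂ) := by
    rw [Finset.sum_sub_distrib, h0, sub_zero]
    simp
  have h2 : (Fintype.card Z : ℝ) < Fintype.card Z := by
    calc (Fintype.card Z : ℝ) = ‖∑ z : Z, (1 - ((ω z : ℂˣ) : ℂ))‖ := by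
          rw [h1, Complex.norm_natCast]
      _ ≤ ∑ z : Z, ‖1 - ((ω z : ℂˣ) : ℂ)‖ := norm_sum_le _ _
      _ < ∑ _z : Z, (1 : ℝ) := Finset.sum_lt_sum_of_nonempty ⟨1, Finset.mem_univ _⟩
          fun z _ => hc z
      _ = Fintype.card Z := by simp
  exact lt_irrefl _ h2

lemma norm_om {Z : Type} [Group Z] [Fintype Z] (ω : Z →* ℂˣ) (z : Z) :
    ‖((ω z : ℂˣ) : ℂ)‖ = 1 := by
  have h1 : ((ω z : ℂˣ) : ℂ) ^ (Fintype.card Z) = 1 := by
    rw [← Units.val_pow_eq_pow_val, ← map_pow, pow_card_eq_one, map_one, Units.val_one]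
  exact Complex.norm_eq_one_of_pow_eq_one h1 Fintype.card_pos.ne'

/-- the estimate of the multiplicity -/
lemma est (Z : Subgroup G) (ω : Z →* ℂˣ) (t χ : G → ℂ) (r f C d : ℝ) (hd : 0 ≤ d)
    (hχ1 : χ 1 = d) (hχn : ∀ g, ‖χ g‖ ≤ d)
    (hχ : ∀ (z : Z) (g : G), χ (g * z) = ((ω z : ℂˣ) : ℂ) * χ g)
    (ht1 : t 1 = r) (hr : 0 ≤ r) (ht : ∀ (z : Z) (g : G), t (z * g) = ((ω z : ℂˣ) : ℂ) * t g)
    (hC : ∀ g, g ∉ Z → ‖t g - (f : ℂ)‖ ≤ C)
    (hC3 : (∃ g, g ∉ Z) → 3 * Fintype.card G * C ≤ r - f)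
    (hsum : ∑ g : G, χ g⁻¹ = 0) : 0 ≤ (∑ g : G, t g * χ g⁻¹).re := by
  classical
  have hfZ : Fintype Z := Fintype.ofFinite _
  have hinv : ∀ g : G, ‖χ g⁻¹‖ ≤ d := fun g => hχn _
  -- values on the centre
  have htz : ∀ z : Z, t z = ((ω z : ℂˣ) : ℂ) * r := fun z => by
    have := ht z 1
    rwa [mul_one, ht1] at this
  have hcz : ∀ z : Z, χ (z : G)⁻¹ = (((ω z)⁻¹ : ℂˣ) : ℂ) * d := fun z => by
    have := hχ z⁻¹ 1
    rwa [one_mul, hχ1, map_inv, Subgroup.coe_inv] at this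
  have hprod : ∀ z : Z, t z * χ (z : G)⁻¹ = ((r * d : ℝ) : ℂ) := fun z => by
    rw [htz, hcz]
    have h3 : ((ω z : ℂˣ) : ℂ) * (((ω z)⁻¹ : ℂˣ) : ℂ) = 1 := Units.mul_inv _
    rw [Complex.ofReal_mul]
    calc ((ω z : ℂˣ) : ℂ) * r * ((((ω z)⁻¹ : ℂˣ) : ℂ) * d) =
        (((ω z : ℂˣ) : ℂ) * (((ω z)⁻¹ : ℂˣ) : ℂ)) * (r * d) := by ring
      _ = r * d := by rw [h3, one_mul]
  -- splitting of sums
  have hsplit : ∀ F : G → ℂ, ∑ g : G, F g = ∑ z : Z, F z +
      ∑ g ∈ Finset.univ.filter (fun g => g ∉ Z), F g := by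
    intro F
    rw [← Finset.sum_filter_add_sum_filter_not Finset.univ (fun g => g ∈ Z) F]
    congr 1
    exact Finset.sum_subtype _ (fun x => by simp) F
  have hcardf : ((Finset.univ.filter (fun g => g ∉ Z)).card : ℝ) ≤ Fintype.card G := by
    exact_mod_cast Finset.card_le_univ _
  have hcZ : (1 : ℝ) ≤ Fintype.card Z := by exact_mod_cast Fintype.card_pos
  have hcG : (1 : ℝ) ≤ Fintype.card G := by exact_mod_cast Fintype.card_pos
  -- bound for the sum outside of the centre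
  have hout : ∀ (F : G → ℂ) (B : ℝ), 0 ≤ B → (∀ g, g ∉ Z → ‖F g‖ ≤ B) →
      -(Fintype.card G * B) ≤ (∑ g ∈ Finset.univ.filter (fun g => g ∉ Z), F g).re := by
    intro F B hB hF
    have h1 : ‖∑ g ∈ Finset.univ.filter (fun g => g ∉ Z), F g‖ ≤ Fintype.card G * B := by
      refine (norm_sum_le _ _).trans ?_
      refine (Finset.sum_le_card_nsmul _ _ B fun g hg => hF g (Finset.mem_filter.1 hg).2).trans ?_
      rw [nsmul_eq_mul]
      exact mul_le_mul_of_nonneg_right hcardf hB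
    have h2 := Complex.abs_re_le_norm (∑ g ∈ Finset.univ.filter (fun g => g ∉ Z), F g)
    have h3 := neg_abs_le (∑ g ∈ Finset.univ.filter (fun g => g ∉ Z), F g).re
    linarith
  by_cases hall : ∀ g : G, g ∈ Z
  · -- everything is central
    rw [hsplit]
    have h1 : Finset.univ.filter (fun g : G => g ∉ Z) = ∅ := by
      ext g
      simp [hall g]
    rw [h1, Finset.sum_empty, add_zero, Finset.sum_congr rfl fun z _ => hprod z, Finset.sum_const,
      nsmul_eq_mul, ← Complex.ofReal_natCast, ← Complex.ofReal_mul, Complex.ofReal_re]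
    positivity
  · push Not at hall
    obtain ⟨g0, hg0⟩ := hall
    have hC0 : 0 ≤ C := (norm_nonneg _).trans (hC g0 hg0)
    have hC3' := hC3 ⟨g0, hg0⟩
    have hG2 : (2 : ℝ) ≤ Fintype.card G := by
      have h1 : 1 < Fintype.card G := by
        rw [Fintype.one_lt_card_iff]
        exact ⟨g0, 1, fun h => hg0 (h ▸ Z.one_mem)⟩
      exact_mod_cast h1
    by_cases hω : ∃ z, ω z ≠ 1
    · -- nontrivial central character
      have hZ2 : (2 : ℝ) ≤ Fintype.card Z := by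
        obtain ⟨z, hz⟩ := hω
        have h1 : 1 < Fintype.card Z := by
          rw [Fintype.one_lt_card_iff]
          exact ⟨z, 1, fun h => hz (h ▸ map_one ω)⟩
        exact_mod_cast h1
      obtain ⟨z, hz⟩ := exists_far ω hω
      have hf : ‖(f : ℂ)‖ ≤ 2 * C := by
        have h1 : (z : G) * g0 ∉ Z := fun h => hg0 ((Subgroup.mul_mem_cancel_left Z z.2).1 h)
        have h2 := hC _ h1
        rw [ht] at h2
        have h3 := hC g0 hg0
        have h4 : (f : ℂ) * (1 - ((ω z : ℂˣ) : ℂ)) = -(((ω z : ℂˣ) : ℂ) * t g0 - f) +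
            ((ω z : ℂˣ) : ℂ) * (t g0 - f) := by ring
        have h5 : ‖(f : ℂ)‖ * ‖1 - ((ω z : ℂˣ) : ℂ)‖ ≤ 2 * C := by
          rw [← norm_mul, h4]
          refine (norm_add_le _ _).trans ?_
          rw [norm_neg, norm_mul, norm_om, one_mul]
          linarith
        have h6 := norm_nonneg (f : ℂ)
        nlinarith
      have hfr : |f| ≤ 2 * C := by
        rwa [Complex.norm_real, Real.norm_eq_abs] at hf
      have hfr' := abs_le.1 hfr
      have hbd : ∀ g, g ∉ Z → ‖t g * χ g⁻¹‖ ≤ 3 * C * d := by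
        intro g hg
        rw [norm_mul]
        apply mul_le_mul _ (hinv g) (norm_nonneg _) (by positivity)
        have h1 := hC g hg
        have h2 : ‖t g‖ ≤ ‖t g - f‖ + ‖(f : ℂ)‖ := by
          have := norm_add_le (t g - f) (f : ℂ)
          rwa [sub_add_cancel] at this
        linarith
      have h1 := hout _ _ (by positivity) hbd
      rw [hsplit, Finset.sum_congr rfl fun z _ => hprod z, Finset.sum_const, nsmul_eq_mul,
        Complex.add_re, ← Complex.ofReal_natCast, ← Complex.ofReal_mul, Complex.ofReal_re,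
        Finset.card_univ]
      have h2 : 4 * C ≤ r := by nlinarith
      have h3 : 0 ≤ (Fintype.card Z * r - 3 * Fintype.card G * C) * d := by
        apply mul_nonneg _ hd
        nlinarith
      nlinarith
    · -- trivial central character
      push Not at hω
      have h0 : ∑ g : G, t g * χ g⁻¹ = ∑ g : G, (t g - f) * χ g⁻¹ := by
        have : ∑ g : G, (t g - f) * χ g⁻¹ = ∑ g : G, t g * χ g⁻¹ - f * ∑ g : G, χ g⁻¹ := by
          rw [Finset.mul_sum, ← Finset.sum_sub_distrib]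
          exact Finset.sum_congr rfl fun g _ => by ring
        rw [this, hsum, mul_zero, sub_zero]
      rw [h0, hsplit]
      have hbd : ∀ g, g ∉ Z → ‖(t g - f) * χ g⁻¹‖ ≤ C * d := by
        intro g hg
        rw [norm_mul]
        exact mul_le_mul (hC g hg) (hinv g) (norm_nonneg _) hC0
      have h1 := hout _ _ (by positivity) hbd
      have h2 : ∀ z : Z, (t z - f) * χ (z : G)⁻¹ = (((r - f) * d : ℝ) : ℂ) := by
        intro z
        rw [htz, hcz, hω z]
        simp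
      rw [Finset.sum_congr rfl fun z _ => h2 z, Finset.sum_const, nsmul_eq_mul,
        Complex.add_re, ← Complex.ofReal_natCast, ← Complex.ofReal_mul, Complex.ofReal_re,
        Finset.card_univ]
      have h3 : 0 ≤ r - f := le_trans (by positivity) hC3'
      have h4 : 0 ≤ (Fintype.card Z * (r - f) - Fintype.card G * C) * d := by
        apply mul_nonneg _ hd
        nlinarith
      nlinarith

end est

section main

open Matrix Pool.Agent.Y788.SL Pool.Agent.H541R3.ART Pool.Agent.W446.AS Pool.Agent.Y786.FR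

lemma sc_center {F : Type} [Field F] {n : ℕ} {g : SpecialLinearGroup (Fin n) F} (h : IsSc g) :
    g ∈ Subgroup.center (SpecialLinearGroup (Fin n) F) := by
  obtain ⟨c, hc⟩ := h
  rw [Subgroup.mem_center_iff]
  intro g'
  apply Subtype.ext
  show (g' : Matrix (Fin n) (Fin n) F) * (g : Matrix (Fin n) (Fin n) F) =
    (g : Matrix (Fin n) (Fin n) F) * (g' : Matrix (Fin n) (Fin n) F)
  rw [hc]
  simp

theorem t_N : SN := by
  intro F _ _ _ n hest θ hθ G _ _ ι hι hsp hcard χ hχ m hm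
  classical
  have hfin : Finite (SpecialLinearGroup (Fin n) F) := Subtype.finite
  have hG0 : (Fintype.card G : ℂ) ≠ 0 := by exact_mod_cast Fintype.card_ne_zero
  by_cases h1 : χ = fun _ => 1
  · obtain ⟨k, hk⟩ := hθ.mult_hom ι (1 : G →* ℂˣ)
    have h2 : (m : ℂ) = (k : ℂ) := by
      apply mul_right_cancel₀ hG0
      rw [← hm, h1, ← Nat.card_eq_fintype_card, ← hk]
      simp
    have h3 : m = (k : ℤ) := by exact_mod_cast h2
    rw [h3]
    exact Int.natCast_nonneg k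
  · set Z : Subgroup G := (Subgroup.center (SpecialLinearGroup (Fin n) F)).comap ι with hZdef
    have hZ : ∀ z ∈ Z, ∀ s : SpecialLinearGroup (Fin n) F, ι z * s = s * ι z := fun z hz s =>
      (Subgroup.mem_center_iff.1 hz s).symm
    have hZc : Z ≤ Subgroup.center G := by
      intro z hz
      rw [Subgroup.mem_center_iff]
      intro g
      apply hι
      rw [map_mul, map_mul]
      exact (hZ z hz _).symm
    obtain ⟨k, ρ, hρ, hχρ⟩ := exists_rep hχ
    obtain ⟨ω0, hω0⟩ := hρ.central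
    set ω : Z →* ℂˣ := ω0.comp (Subgroup.inclusion hZc) with hω
    have hχz : ∀ (z : Z) (g : G), χ (g * z) = ((ω z : ℂˣ) : ℂ) * χ g := by
      intro z g
      rw [hχρ]
      have h2 : ρ (g * z) = ((ω z : ℂˣ) : ℂ) • ρ g := by
        rw [map_mul]
        refine LinearMap.ext fun v => ?_
        rw [Module.End.mul_apply, LinearMap.smul_apply]
        have h3 : ρ (z : G) v = ((ω z : ℂˣ) : ℂ) • v := hω0 ⟨z, hZc z.2⟩ v
        rw [h3, map_smul]
      show LinearMap.trace ℂ _ (ρ (g * z)) = _ * LinearMap.trace ℂ _ (ρ g)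
      rw [h2, map_smul, smul_eq_mul]
    obtain ⟨d, hd0, hd⟩ := irr_deg hχ
    have hH : IsHeilbronn (tws ι Z ω θ) := tws_heil hZ ω hθ
    obtain ⟨f, hf⟩ := hest _ hH
    obtain ⟨r, hr⟩ := hH.exists_deg
    have hrr : (tws ι Z ω θ 1).re = r := by rw [hr, Complex.natCast_re]
    rw [hrr] at hf
    have hq : 0 < (Nat.card F : ℝ) := by exact_mod_cast Nat.card_pos
    have hC : ∀ g, g ∉ Z → ‖tws ι Z ω θ (ι g) - (f : ℂ)‖ ≤
        14 * n * (((r : ℝ) - f) / Nat.card F) := by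
      intro g hg
      refine hf _ ?_ fun h => hg (sc_center h)
      obtain ⟨a, ha⟩ := hsp g
      exact ⟨a, by rw [← map_pow, ha, map_one]⟩
    have hC3 : (∃ g, g ∉ Z) → 3 * Fintype.card G * (14 * n * (((r : ℝ) - f) / Nat.card F)) ≤
        r - f := by
      rintro ⟨g, hg⟩
      have hn : 0 < n := by
        rcases Nat.eq_zero_or_pos n with rfl | h
        · exfalso
          apply hg
          apply sc_center
          exact ⟨1, Subsingleton.elim _ _⟩
        · exact h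
      have hn' : (0 : ℝ) < n := by exact_mod_cast hn
      have h2 := (norm_nonneg _).trans (hC g hg)
      have h3 : 0 ≤ (r : ℝ) - f := by
        by_contra h4
        push Not at h4
        have h5 : ((r : ℝ) - f) / Nat.card F < 0 := div_neg_of_neg_of_pos h4 hq
        nlinarith
      have h4 : (42 * n * Fintype.card G : ℝ) ≤ Nat.card F := by exact_mod_cast hcard
      have h5 : 3 * Fintype.card G * (14 * n * (((r : ℝ) - f) / Nat.card F)) =
          (42 * n * Fintype.card G) * ((r : ℝ) - f) / Nat.card F := by ring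
      rw [h5, div_le_iff₀ hq]
      nlinarith
    have hmain := est Z ω (fun g => tws ι Z ω θ (ι g)) χ r f _ d (Nat.cast_nonneg d)
      (by rw [hd, Complex.ofReal_natCast]) (fun g => by
        have := irr_norm_le hχ g
        rwa [hd, Complex.natCast_re] at this) hχz
      (by simp only [map_one]; rw [hr, Complex.ofReal_natCast]) (Nat.cast_nonneg r)
      (fun z g => by
        simp only [map_mul]
        exact tws_mul ω z (ι g)) hC hC3 (sum_irr_inv hχ h1)
    rw [tws_sum ω hχz, hm] at hmain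
    have h2 : ((m : ℂ) * (Fintype.card G : ℂ)).re = (m : ℝ) * Fintype.card G := by
      rw [← Complex.ofReal_intCast, ← Complex.ofReal_natCast, ← Complex.ofReal_mul,
        Complex.ofReal_re]
    rw [h2] at hmain
    have h3 : (0 : ℝ) < Fintype.card G := by exact_mod_cast Fintype.card_pos
    have h4 : (0 : ℝ) ≤ m := by
      by_contra h5
      push Not at h5
      nlinarith
    exact_mod_cast h4

end main

end Pool.Agent.Y954.SL
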